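import Pool.Agent.D0H44.EC.StmB
import Pool.Agent.D0H44.EL.Eng

/-! Project EC, package ENA: the identity of Vaughan inside one residue class. -/

open Finset

namespace Pool.Agent.D0H13.EC

open Pool.Agent.Helper112 Pool.Agent.Helper112.TI Pool.Agent.Helper112.TII
open Pool.Agent.Helper112.BLB Pool.Agent.H398R2.BV Pool.Agent.H410R2
open Pool.Agent.D0H44.EL Pool.Agent.D0H44.EC

/-- sums over bounded sequences with a logarithmic weight -/
theorem ilog (g : ℕ → ℂ) (B : ℝ) (hB : ∀ n : ℕ, ‖∑ i ∈ Icc 1 n, g i‖ ≤ B) (X : ℝ)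
    (hX : 1 ≤ X) (c M : ℕ) (hc : 1 ≤ c) (hcX : (c:ℝ) ≤ X) (hM : (M : ℝ) ≤ X) :
    ‖∑ b ∈ Icc 1 M, g b * ((Real.log (X / ((b * c : ℕ) : ℝ)) : ℝ) : ℂ)‖ ≤
      3 * B * Real.log X := by
  have hL : 0 ≤ Real.log X := Real.log_nonneg hX
  have hc0 : (0:ℝ) < c := by exact_mod_cast hc
  have hB0 : 0 ≤ B := (norm_nonneg _).trans (hB 0)
  have e : ∑ b ∈ Icc 1 M, g b * ((Real.log (X / ((b * c : ℕ) : ℝ)) : ℝ) : ℂ) =
      ((Real.log (X / c) : ℝ) : ℂ) * ∑ b ∈ Icc 1 M, g b -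
      ∑ b ∈ Icc 1 M, g b * ((Real.log b : ℝ) : ℂ) := by
    rw [mul_sum, ← sum_sub_distrib]
    apply sum_congr rfl
    intro b hb
    rw [mem_Icc] at hb
    have hb0 : (0:ℝ) < b := by exact_mod_cast hb.1
    have : Real.log (X / ((b * c : ℕ) : ℝ)) = Real.log (X / c) - Real.log b := by
      push_cast
      rw [← Real.log_div (by positivity) (by positivity)]
      congr 1
      field_simp
    rw [this]
    push_cast
    ring
  rw [e]
  refine (norm_sub_le _ _).trans ?_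
  have h1 := abel_mono g B hB (fun n : ℕ => Real.log n) mono_log (by simp) M
  have h2 : ‖((Real.log (X / c) : ℝ) : ℂ) * ∑ b ∈ Icc 1 M, g b‖ ≤ Real.log X * B := by
    rw [norm_mul, Complex.norm_real, Real.norm_eq_abs]
    have h3 : |Real.log (X / c)| ≤ Real.log X := by
      have hc1 : (1:ℝ) ≤ c := by exact_mod_cast hc
      rw [abs_of_nonneg]
      · apply Real.log_le_log (by positivity)
        exact div_le_self (by linarith) hc1
      · apply Real.log_nonneg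
        rwa [le_div_iff₀ hc0, one_mul]
    exact mul_le_mul h3 (hB M) (norm_nonneg _) hL
  have h4 : Real.log M ≤ Real.log X := log_natCast_le M X hX hM
  have h5 : 2 * B * Real.log M ≤ 2 * B * Real.log X :=
    mul_le_mul_of_nonneg_left h4 (by positivity)
  linarith

theorem iloglog (g : ℕ → ℂ) (B : ℝ) (hB : ∀ n : ℕ, ‖∑ i ∈ Icc 1 n, g i‖ ≤ B) (X : ℝ)
    (hX : 1 ≤ X) (c M : ℕ) (hc : 1 ≤ c) (hcX : (c:ℝ) ≤ X) (hM : (M : ℝ) ≤ X) :
    ‖∑ b ∈ Icc 1 M, g b * ((Real.log b : ℝ) : ℂ) *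
      ((Real.log (X / ((b * c : ℕ) : ℝ)) : ℝ) : ℂ)‖ ≤ 4 * B * Real.log X ^ 2 := by
  have hL : 0 ≤ Real.log X := Real.log_nonneg hX
  have hc0 : (0:ℝ) < c := by exact_mod_cast hc
  have hB0 : 0 ≤ B := (norm_nonneg _).trans (hB 0)
  have e : ∑ b ∈ Icc 1 M, g b * ((Real.log b : ℝ) : ℂ) *
      ((Real.log (X / ((b * c : ℕ) : ℝ)) : ℝ) : ℂ) =
      ((Real.log (X / c) : ℝ) : ℂ) * ∑ b ∈ Icc 1 M, g b * ((Real.log b : ℝ) : ℂ) -
      ∑ b ∈ Icc 1 M, g b * ((Real.log b ^ 2 : ℝ) : ℂ) := by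
    rw [mul_sum, ← sum_sub_distrib]
    apply sum_congr rfl
    intro b hb
    rw [mem_Icc] at hb
    have hb0 : (0:ℝ) < b := by exact_mod_cast hb.1
    have : Real.log (X / ((b * c : ℕ) : ℝ)) = Real.log (X / c) - Real.log b := by
      push_cast
      rw [← Real.log_div (by positivity) (by positivity)]
      congr 1
      field_simp
    rw [this]
    push_cast
    ring
  rw [e]
  refine (norm_sub_le _ _).trans ?_
  have h1 := abel_mono g B hB (fun n : ℕ => Real.log n) mono_log (by simp) M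
  have h1' := abel_mono g B hB (fun n : ℕ => Real.log n ^ 2) mono_log_sq (by simp) M
  have h4 : Real.log M ≤ Real.log X := log_natCast_le M X hX hM
  have h4' : Real.log M ^ 2 ≤ Real.log X ^ 2 :=
    pow_le_pow_left₀ (Real.log_natCast_nonneg M) h4 2
  have h3 : |Real.log (X / c)| ≤ Real.log X := by
    have hc1 : (1:ℝ) ≤ c := by exact_mod_cast hc
    rw [abs_of_nonneg]
    · apply Real.log_le_log (by positivity)
      exact div_le_self (by linarith) hc1
    · apply Real.log_nonneg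
      rwa [le_div_iff₀ hc0, one_mul]
  have h2 : ‖((Real.log (X / c) : ℝ) : ℂ) *
      ∑ b ∈ Icc 1 M, g b * ((Real.log b : ℝ) : ℂ)‖ ≤
      Real.log X * (2 * B * Real.log X) := by
    rw [norm_mul, Complex.norm_real, Real.norm_eq_abs]
    apply mul_le_mul h3 _ (norm_nonneg _) hL
    refine h1.trans ?_
    exact mul_le_mul_of_nonneg_left h4 (by positivity)
  have h5 : 2 * B * Real.log M ^ 2 ≤ 2 * B * Real.log X ^ 2 :=
    mul_le_mul_of_nonneg_left h4' (by positivity)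
  have h6 : Real.log X * (2 * B * Real.log X) = 2 * B * Real.log X ^ 2 := by ring
  linarith

/-- the function `ψ(b) 1_{b c ≡ a}` -/
noncomputable def gc (q a c : ℕ) {r : ℕ} (ψ : DirichletCharacter ℂ r) (b : ℕ) : ℂ :=
  if b * c ≡ a [MOD q] then ψ (b : ZMod r) else 0

/-- the character sums over the solutions of `b c ≡ a` -/
theorem gc_sum (q a c : ℕ) (ha : a.Coprime q) {r : ℕ} (ψ : DirichletCharacter ℂ r) (B : ℝ)
    (hB : ∀ b N : ℕ, ‖∑ i ∈ (Icc 1 N).filter (fun i => i ≡ b [MOD q]), ψ (i : ZMod r)‖ ≤ B)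
    (N : ℕ) : ‖∑ i ∈ Icc 1 N, gc q a c ψ i‖ ≤ B := by
  have hB0 : 0 ≤ B := (norm_nonneg _).trans (hB 0 0)
  unfold gc
  rw [← sum_filter]
  by_cases h : ∃ b : ℕ, b * c ≡ a [MOD q]
  · obtain ⟨b, hb⟩ := h
    have hc : Nat.Coprime q c := by
      have h1 : Nat.Coprime (b * c) q := by
        rw [Nat.coprime_iff_gcd_eq_one, hb.gcd_eq]
        exact ha
      exact (Nat.Coprime.coprime_mul_left h1).symm
    have e : (Icc 1 N).filter (fun i => i * c ≡ a [MOD q]) =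
        (Icc 1 N).filter (fun i => i ≡ b [MOD q]) := by
      apply filter_congr
      intro i _
      constructor
      · intro hi
        exact Nat.ModEq.cancel_right_of_coprime hc (hi.trans hb.symm)
      · intro hi
        exact (hi.mul_right c).trans hb
    rw [e]
    exact hB b N
  · rw [filter_false_of_mem (fun i _ hi => h ⟨i, hi⟩), sum_empty, norm_zero]
    exact hB0

/-- first piece -/
theorem pc1 (X : ℝ) (hX : 1 ≤ X) (q a U f : ℕ) (ψ : DirichletCharacter ℂ f) :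
    ‖TL X f ψ (rc q a (fun n => l1 U n))‖ ≤ U * Real.log X ^ 2 := by
  have hL : 0 ≤ Real.log X := Real.log_nonneg hX
  unfold TL
  calc _ ≤ ∑ n ∈ Icc 1 ⌊X⌋₊, ‖((rc q a (fun n => l1 U n) n : ℝ) : ℂ) * ψ (n : ZMod f) *
        ((Real.log (X / n) : ℝ) : ℂ)‖ := norm_sum_le _ _
    _ ≤ ∑ n ∈ Icc 1 ⌊X⌋₊, l1 U n * Real.log X := by
        apply sum_le_sum
        intro n hn
        have h1 := log_div_abs X n hn hX
        have h2 := ψ.norm_le_one (n : ZMod f)
        have h3 := l1_nonneg U n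
        have h4 : |rc q a (fun n => l1 U n) n| ≤ l1 U n := by
          unfold rc
          split_ifs
          · rw [abs_of_nonneg h3]
          · rw [abs_zero]; exact h3
        rw [norm_mul, norm_mul, Complex.norm_real, Complex.norm_real, Real.norm_eq_abs,
          Real.norm_eq_abs]
        calc |rc q a (fun n => l1 U n) n| * ‖ψ (n : ZMod f)‖ * |Real.log (X / n)| ≤
            l1 U n * 1 * Real.log X := by gcongr
          _ = _ := by ring
    _ = (∑ n ∈ Icc 1 ⌊X⌋₊, l1 U n) * Real.log X := by rw [sum_mul]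
    _ ≤ (U * Real.log X) * Real.log X := mul_le_mul_of_nonneg_right (sum_l1 U X hX) hL
    _ = _ := by ring

/-- second piece -/
theorem pc2 (X : ℝ) (hX : 1 ≤ X) (q a : ℕ) (ha : a.Coprime q) (V f : ℕ)
    (ψ : DirichletCharacter ℂ f) (B : ℝ)
    (hB : ∀ b N : ℕ, ‖∑ i ∈ (Icc 1 N).filter (fun i => i ≡ b [MOD q]), ψ (i : ZMod f)‖ ≤ B) :
    ‖TL X f ψ (rc q a (fun n => (ArithmeticFunction.log * mu1 V) n))‖ ≤
      V * (4 * B * Real.log X ^ 2) := by
  have hL : 0 ≤ Real.log X := Real.log_nonneg hX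
  have hB0 : 0 ≤ B := (norm_nonneg _).trans (hB 0 0)
  have e2 : TL X f ψ (rc q a (fun n => (ArithmeticFunction.log * mu1 V) n)) =
      ∑ c ∈ Icc 1 ⌊X⌋₊, ((mu1 V c : ℝ) : ℂ) * ψ (c : ZMod f) *
        ∑ b ∈ Icc 1 (⌊X⌋₊ / c), gc q a c ψ b * ((Real.log b : ℝ) : ℂ) *
          ((Real.log (X / ((b * c : ℕ) : ℝ)) : ℝ) : ℂ) := by
    have h1 : TL X f ψ (rc q a (fun n => (ArithmeticFunction.log * mu1 V) n)) =
        ∑ n ∈ Icc 1 ⌊X⌋₊, ∑ i ∈ n.divisorsAntidiagonal,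
        ((mu1 V i.2 : ℝ) : ℂ) * ψ (i.2 : ZMod f) * (gc q a i.2 ψ i.1 *
          ((Real.log i.1 : ℝ) : ℂ) * ((Real.log (X / ((i.1 * i.2 : ℕ) : ℝ)) : ℝ) : ℂ)) := by
      unfold TL
      apply sum_congr rfl
      intro n _
      unfold rc
      by_cases hn : n ≡ a [MOD q]
      · rw [if_pos hn]
        beta_reduce
        rw [ArithmeticFunction.mul_apply, Complex.ofReal_sum, sum_mul, sum_mul]
        apply sum_congr rfl
        intro i hi
        rw [Nat.mem_divisorsAntidiagonal] at hi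
        unfold gc
        rw [if_pos (by rw [hi.1]; exact hn), ← hi.1, ArithmeticFunction.log_apply]
        push_cast
        rw [map_mul]
        ring
      · rw [if_neg hn]
        simp only [Complex.ofReal_zero, zero_mul]
        symm
        apply sum_eq_zero
        intro i hi
        rw [Nat.mem_divisorsAntidiagonal] at hi
        unfold gc
        rw [if_neg (by rw [hi.1]; exact hn)]
        ring
    rw [h1, hyperC ⌊X⌋₊ (fun b c => ((mu1 V c : ℝ) : ℂ) * ψ (c : ZMod f) * (gc q a c ψ b *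
          ((Real.log b : ℝ) : ℂ) * ((Real.log (X / ((b * c : ℕ) : ℝ)) : ℝ) : ℂ)))]
    apply sum_congr rfl
    intro c _
    rw [mul_sum]
  rw [e2]
  refine (norm_sum_le _ _).trans ?_
  calc _ ≤ ∑ c ∈ Icc 1 ⌊X⌋₊, |mu1 V c| * (4 * B * Real.log X ^ 2) := by
        apply sum_le_sum
        intro c hc
        rw [mem_Icc] at hc
        have hcX : (c:ℝ) ≤ X := (Nat.le_floor_iff (by linarith)).mp hc.2
        have hMX : ((⌊X⌋₊ / c : ℕ) : ℝ) ≤ X :=
          (Nat.le_floor_iff (by linarith)).mp (Nat.div_le_self _ _)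
        rw [norm_mul, norm_mul, Complex.norm_real, Real.norm_eq_abs]
        have h1 := iloglog (gc q a c ψ) B (gc_sum q a c ha ψ B hB) X hX c (⌊X⌋₊ / c) hc.1 hcX hMX
        have h2 := ψ.norm_le_one (c : ZMod f)
        have h3 := abs_nonneg (mu1 V c)
        calc _ ≤ |mu1 V c| * 1 * (4 * B * Real.log X ^ 2) := by gcongr
          _ = _ := by ring
    _ = (∑ c ∈ Icc 1 ⌊X⌋₊, |mu1 V c|) * (4 * B * Real.log X ^ 2) := by rw [sum_mul]
    _ ≤ _ := mul_le_mul_of_nonneg_right (sum_mu1 V _) (by positivity)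

/-- third piece: short variable -/
theorem pc3 (X : ℝ) (hX : 1 ≤ X) (q a : ℕ) (ha : a.Coprime q) (U W f : ℕ)
    (ψ : DirichletCharacter ℂ f) (B : ℝ)
    (hB : ∀ b N : ℕ, ‖∑ i ∈ (Icc 1 N).filter (fun i => i ≡ b [MOD q]), ψ (i : ZMod f)‖ ≤ B) :
    ‖TL X f ψ (rc q a (fun n => ∑ i ∈ n.divisorsAntidiagonal, zt i.1 * bS U W i.2))‖ ≤
      (W * Real.log X) * (3 * B * Real.log X) := by
  have hL : 0 ≤ Real.log X := Real.log_nonneg hX
  have hB0 : 0 ≤ B := (norm_nonneg _).trans (hB 0 0)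
  have e3 : TL X f ψ (rc q a (fun n => ∑ i ∈ n.divisorsAntidiagonal, zt i.1 * bS U W i.2)) =
      ∑ c ∈ Icc 1 ⌊X⌋₊, ((bS U W c : ℝ) : ℂ) * ψ (c : ZMod f) *
        ∑ b ∈ Icc 1 (⌊X⌋₊ / c), gc q a c ψ b *
          ((Real.log (X / ((b * c : ℕ) : ℝ)) : ℝ) : ℂ) := by
    have h1 : TL X f ψ (rc q a (fun n => ∑ i ∈ n.divisorsAntidiagonal, zt i.1 * bS U W i.2)) =
        ∑ n ∈ Icc 1 ⌊X⌋₊, ∑ i ∈ n.divisorsAntidiagonal,
        ((bS U W i.2 : ℝ) : ℂ) * ψ (i.2 : ZMod f) * (gc q a i.2 ψ i.1 *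
          ((Real.log (X / ((i.1 * i.2 : ℕ) : ℝ)) : ℝ) : ℂ)) := by
      unfold TL
      apply sum_congr rfl
      intro n _
      unfold rc
      by_cases hn : n ≡ a [MOD q]
      · rw [if_pos hn, Complex.ofReal_sum, sum_mul, sum_mul]
        apply sum_congr rfl
        intro i hi
        rw [Nat.mem_divisorsAntidiagonal] at hi
        have hi1 : i.1 ≠ 0 := by
          rintro h
          rw [h] at hi
          simp at hi
          omega
        unfold gc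
        rw [if_pos (by rw [hi.1]; exact hn), zt_apply hi1, ← hi.1]
        push_cast
        rw [map_mul]
        ring
      · rw [if_neg hn]
        simp only [Complex.ofReal_zero, zero_mul]
        symm
        apply sum_eq_zero
        intro i hi
        rw [Nat.mem_divisorsAntidiagonal] at hi
        unfold gc
        rw [if_neg (by rw [hi.1]; exact hn)]
        ring
    rw [h1, hyperC ⌊X⌋₊ (fun b c => ((bS U W c : ℝ) : ℂ) * ψ (c : ZMod f) *
      (gc q a c ψ b * ((Real.log (X / ((b * c : ℕ) : ℝ)) : ℝ) : ℂ)))]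
    apply sum_congr rfl
    intro c _
    rw [mul_sum]
  rw [e3]
  have hsum : ∑ c ∈ Icc 1 ⌊X⌋₊, |bS U W c| ≤ W * Real.log X := by
    calc ∑ c ∈ Icc 1 ⌊X⌋₊, |bS U W c| ≤ ∑ c ∈ Icc 1 ⌊X⌋₊, if c ≤ W then Real.log X else 0 := by
          apply sum_le_sum
          intro c hc
          rw [mem_Icc] at hc
          split_ifs with h
          · refine (bS_abs U W c).trans (log_natCast_le c X hX ?_)
            exact (Nat.le_floor_iff (by linarith)).mp hc.2
          · unfold bS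
            rw [if_pos (by omega)]
            simp
      _ = (((Icc 1 ⌊X⌋₊).filter (fun n => n ≤ W)).card : ℝ) * Real.log X := by
          rw [← sum_filter, sum_const, nsmul_eq_mul]
      _ ≤ ((Icc 1 W).card : ℝ) * Real.log X := by
          apply mul_le_mul_of_nonneg_right _ hL
          norm_cast
          apply card_le_card
          intro n hn
          rw [mem_filter, mem_Icc] at hn
          rw [mem_Icc]
          exact ⟨hn.1.1, hn.2⟩
      _ = _ := by simp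
  refine (norm_sum_le _ _).trans ?_
  calc _ ≤ ∑ c ∈ Icc 1 ⌊X⌋₊, |bS U W c| * (3 * B * Real.log X) := by
        apply sum_le_sum
        intro c hc
        rw [mem_Icc] at hc
        have hcX : (c:ℝ) ≤ X := (Nat.le_floor_iff (by linarith)).mp hc.2
        have hMX : ((⌊X⌋₊ / c : ℕ) : ℝ) ≤ X :=
          (Nat.le_floor_iff (by linarith)).mp (Nat.div_le_self _ _)
        rw [norm_mul, norm_mul, Complex.norm_real, Real.norm_eq_abs]
        have h1 := ilog (gc q a c ψ) B (gc_sum q a c ha ψ B hB) X hX c (⌊X⌋₊ / c) hc.1 hcX hMX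
        have h2 := ψ.norm_le_one (c : ZMod f)
        have h3 := abs_nonneg (bS U W c)
        calc _ ≤ |bS U W c| * 1 * (3 * B * Real.log X) := by gcongr
          _ = _ := by ring
    _ = (∑ c ∈ Icc 1 ⌊X⌋₊, |bS U W c|) * (3 * B * Real.log X) := by rw [sum_mul]
    _ ≤ _ := mul_le_mul_of_nonneg_right hsum (by positivity)

/-- the decomposition of the von Mangoldt function on the class -/
theorem dec (X : ℝ) (q a U f : ℕ) (ψ : DirichletCharacter ℂ f) :
    TL X f ψ (La q a) = TL X f ψ (rc q a (fun n => l1 U n)) +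
      TL X f ψ (rc q a (fun n => (ArithmeticFunction.log * mu1 U) n)) -
      (TL X f ψ (rc q a (fun n => ∑ i ∈ n.divisorsAntidiagonal, zt i.1 * bS U U i.2)) +
        TL X f ψ (rc q a (fun n => ∑ i ∈ n.divisorsAntidiagonal, zt i.1 * bL U U i.2))) +
      TL X f ψ (rc q a (LamII U U)) := by
  have h1 : ∀ n : ℕ, ArithmeticFunction.vonMangoldt n = l1 U n +
      (ArithmeticFunction.log * mu1 U) n -
      (∑ i ∈ n.divisorsAntidiagonal, zt i.1 * bS U U i.2 +
        ∑ i ∈ n.divisorsAntidiagonal, zt i.1 * bL U U i.2) + LamII U U n := by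
    intro n
    have h2 := vaughan U U n
    have h3 : (((ArithmeticFunction.zeta : ArithmeticFunction ℕ) : ArithmeticFunction ℝ) *
        (mu1 U * l1 U)) n = ∑ i ∈ n.divisorsAntidiagonal, zt i.1 * bS U U i.2 +
        ∑ i ∈ n.divisorsAntidiagonal, zt i.1 * bL U U i.2 := by
      rw [ArithmeticFunction.mul_apply, ← sum_add_distrib]
      apply sum_congr rfl
      intro i _
      unfold bS bL zt
      split_ifs <;> ring
    rw [h3] at h2
    linarith
  have key : ∀ g₁ g₂ g₃ g₄ g₅ : ℕ → ℝ,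
      TL X f ψ (fun n => g₁ n + g₂ n - (g₃ n + g₄ n) + g₅ n) =
      TL X f ψ g₁ + TL X f ψ g₂ - (TL X f ψ g₃ + TL X f ψ g₄) + TL X f ψ g₅ := by
    intro g₁ g₂ g₃ g₄ g₅
    unfold TL
    rw [← sum_add_distrib, ← sum_add_distrib, ← sum_sub_distrib, ← sum_add_distrib]
    apply sum_congr rfl
    intro n _
    push_cast; ring
  rw [← key]
  unfold TL
  apply sum_congr rfl
  intro n _
  have : La q a n = rc q a (fun n => l1 U n) n +
      rc q a (fun n => (ArithmeticFunction.log * mu1 U) n) n -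
      (rc q a (fun n => ∑ i ∈ n.divisorsAntidiagonal, zt i.1 * bS U U i.2) n +
        rc q a (fun n => ∑ i ∈ n.divisorsAntidiagonal, zt i.1 * bL U U i.2) n) +
      rc q a (LamII U U) n := by
    unfold La rc
    split_ifs
    · exact h1 n
    · ring
  rw [this]

/-- one point of the separation of variables -/
theorem one_pt' (hBLA : S_BLA) (X : ℝ) (x y R q a : ℕ) (G : Finset ℕ) (hR : 1 ≤ R) (hq : 1 ≤ q)
    (ha : a.Coprime q) (hG : ∀ r ∈ G, r.Prime ∧ R < r ∧ r ≤ 2 * R ∧ ¬ r ∣ q)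
    (hxy : (x : ℝ) * y ≤ X) (Sx Sy Ca Cb : ℝ)
    (hx : Real.sqrt (x / q) ≤ Sx) (hy : Real.sqrt (y / q) ≤ Sy) (hCa : 0 ≤ Ca) (hCb : 0 ≤ Cb)
    (α β : ℕ → ℝ)
    (hα : ∑ b ∈ Icc 1 x, α b ^ 2 ≤ x * Ca ^ 2) (hβ : ∑ c ∈ Icc 1 y, β c ^ 2 ≤ y * Cb ^ 2) :
    ∑ m ∈ range q, ∑ r ∈ G, P x y (rc q m α) (rd q a m β) r ≤
      90 * (Real.sqrt X / q + R * (Sx + Sy) + (R : ℝ) ^ 2) * (Real.sqrt X * (Ca * Cb)) := by
  refine (hBLA R q a x y G α β hR hq ha hG).trans ?_
  have hq0 : (0 : ℝ) < q := by exact_mod_cast hq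
  have hR1 : (1 : ℝ) ≤ R := by exact_mod_cast hR
  have h1 : Real.sqrt (∑ b ∈ Icc 1 x, α b ^ 2) ≤ Real.sqrt x * Ca := by
    rw [Real.sqrt_le_left (by positivity), mul_pow, Real.sq_sqrt (by positivity)]
    exact hα
  have h2 : Real.sqrt (∑ b ∈ Icc 1 y, β b ^ 2) ≤ Real.sqrt y * Cb := by
    rw [Real.sqrt_le_left (by positivity), mul_pow, Real.sq_sqrt (by positivity)]
    exact hβ
  have h3 : Real.sqrt x * Real.sqrt y ≤ Real.sqrt X := by
    rw [← Real.sqrt_mul (by positivity)]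
    exact Real.sqrt_le_sqrt hxy
  have h4 : Real.sqrt (∑ b ∈ Icc 1 x, α b ^ 2) * Real.sqrt (∑ c ∈ Icc 1 y, β c ^ 2) ≤
      Real.sqrt X * (Ca * Cb) := by
    calc _ ≤ (Real.sqrt x * Ca) * (Real.sqrt y * Cb) := by gcongr
      _ = (Real.sqrt x * Real.sqrt y) * (Ca * Cb) := by ring
      _ ≤ _ := by gcongr
  have hroot : ∀ z : ℕ, Real.sqrt ((z : ℝ) / q + 1 + 4 * (R : ℝ) ^ 2) ≤
      Real.sqrt ((z : ℝ) / q) + 3 * R := by
    intro z
    have hz : (0 : ℝ) ≤ (z : ℝ) / q := by positivity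
    rw [Real.sqrt_le_left (by positivity), add_sq, Real.sq_sqrt hz]
    have : 0 ≤ 2 * Real.sqrt ((z : ℝ) / q) * (3 * R) := by positivity
    nlinarith
  have h5 : Real.sqrt ((x : ℝ) / q + 1 + 4 * (R : ℝ) ^ 2) *
      Real.sqrt ((y : ℝ) / q + 1 + 4 * (R : ℝ) ^ 2) ≤
      9 * (Real.sqrt X / q + R * (Sx + Sy) + (R : ℝ) ^ 2) := by
    have hSx : 0 ≤ Sx := (Real.sqrt_nonneg _).trans hx
    have hSy : 0 ≤ Sy := (Real.sqrt_nonneg _).trans hy
    have e0 : Real.sqrt ((x : ℝ) / q) * Real.sqrt ((y : ℝ) / q) ≤ Real.sqrt X / q := by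
      rw [Real.sqrt_div (by positivity), Real.sqrt_div (by positivity), div_mul_div_comm,
        Real.mul_self_sqrt (by positivity)]
      gcongr
    calc _ ≤ (Real.sqrt ((x : ℝ) / q) + 3 * R) * (Real.sqrt ((y : ℝ) / q) + 3 * R) :=
          mul_le_mul (hroot x) (hroot y) (Real.sqrt_nonneg _) (by positivity)
      _ = Real.sqrt ((x : ℝ) / q) * Real.sqrt ((y : ℝ) / q) +
          3 * (R * (Real.sqrt ((x : ℝ) / q) + Real.sqrt ((y : ℝ) / q))) + 9 * (R : ℝ) ^ 2 := by ring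
      _ ≤ Real.sqrt X / q + 3 * (R * (Sx + Sy)) + 9 * (R : ℝ) ^ 2 := by gcongr
      _ ≤ _ := by
          have : 0 ≤ Real.sqrt X / q := by positivity
          have : 0 ≤ R * (Sx + Sy) := by positivity
          linarith
  have h6 : 0 ≤ Real.sqrt (∑ b ∈ Icc 1 x, α b ^ 2) * Real.sqrt (∑ c ∈ Icc 1 y, β c ^ 2) := by
    positivity
  have h7 : 0 ≤ Real.sqrt ((x : ℝ) / q + 1 + 4 * (R : ℝ) ^ 2) *
      Real.sqrt ((y : ℝ) / q + 1 + 4 * (R : ℝ) ^ 2) := by positivity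
  calc _ ≤ 10 * (9 * (Real.sqrt X / q + R * (Sx + Sy) + (R : ℝ) ^ 2)) *
        (Real.sqrt X * (Ca * Cb)) :=
        mul_le_mul (mul_le_mul_of_nonneg_left h5 (by norm_num)) h4 h6
          (mul_nonneg (by norm_num) (h7.trans h5))
    _ = _ := by ring

/-- if one of the two sequences vanishes, so does the sum -/
theorem zero_pt (hBLA : S_BLA) (x y R q a : ℕ) (G : Finset ℕ) (hR : 1 ≤ R) (hq : 1 ≤ q)
    (ha : a.Coprime q) (hG : ∀ r ∈ G, r.Prime ∧ R < r ∧ r ≤ 2 * R ∧ ¬ r ∣ q)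
    (α β : ℕ → ℝ)
    (h : ∑ b ∈ Icc 1 x, α b ^ 2 = 0 ∨ ∑ c ∈ Icc 1 y, β c ^ 2 = 0) :
    ∑ m ∈ range q, ∑ r ∈ G, P x y (rc q m α) (rd q a m β) r ≤ 0 := by
  refine (hBLA R q a x y G α β hR hq ha hG).trans ?_
  rcases h with h | h <;> simp [h]

/-- the bilinear part -/
theorem pt_II' (hBLA : S_BLA) (X : ℝ) (hX : 1 ≤ X) (U R q a : ℕ) (G : Finset ℕ) (hR : 1 ≤ R)
    (hq : 1 ≤ q) (ha : a.Coprime q) (hG : ∀ r ∈ G, r.Prime ∧ R < r ∧ r ≤ 2 * R ∧ ¬ r ∣ q)
    (hU : 1 ≤ U) (t : ℝ) (ht1 : 1 ≤ t) (ht2 : t ≤ X) :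
    ∑ m ∈ range q, ∑ r ∈ G, P ⌊t⌋₊ ⌊X / t⌋₊ (rc q m (betaV U)) (rd q a m (L2 U)) r ≤
      90 * (Real.sqrt X / q + R * (Real.sqrt (X / (U * q)) + Real.sqrt (X / (U * q))) +
        (R : ℝ) ^ 2) * (Real.sqrt X * ((1 + Real.log X) ^ 2 * (1 + Real.log X))) := by
  have hL : 0 ≤ Real.log X := Real.log_nonneg hX
  have ht0 : 0 < t := by linarith
  have hU0 : (0:ℝ) < U := by exact_mod_cast hU
  have hq0 : (0:ℝ) < q := by exact_mod_cast hq
  have hRHS : 0 ≤ 90 * (Real.sqrt X / q + R * (Real.sqrt (X / (U * q)) +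
      Real.sqrt (X / (U * q))) + (R : ℝ) ^ 2) *
        (Real.sqrt X * ((1 + Real.log X) ^ 2 * (1 + Real.log X))) := by positivity
  rcases Nat.lt_or_ge U ⌊t⌋₊ with hVt | hVt
  swap
  · refine (zero_pt hBLA _ _ R q a G hR hq ha hG _ _ (Or.inl ?_)).trans hRHS
    apply sum_eq_zero
    intro b hb
    rw [mem_Icc] at hb
    rw [betaV_zero U b (hb.2.trans hVt)]
    simp
  rcases Nat.lt_or_ge U ⌊X / t⌋₊ with hUt | hUt
  swap
  · refine (zero_pt hBLA _ _ R q a G hR hq ha hG _ _ (Or.inr ?_)).trans hRHS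
    apply sum_eq_zero
    intro c hc
    rw [mem_Icc] at hc
    have : L2 U c = 0 := by
      unfold L2
      rw [if_neg (by omega)]
    rw [this]
    simp
  have hx1 : (⌊t⌋₊ : ℝ) ≤ t := Nat.floor_le (by linarith)
  have hXt : 1 ≤ X / t := by rw [le_div_iff₀ ht0]; linarith
  have hy1 : (⌊X / t⌋₊ : ℝ) ≤ X / t := Nat.floor_le (by linarith)
  have hVr : (U : ℝ) ≤ ⌊t⌋₊ := by exact_mod_cast hVt.le
  have hUr : (U : ℝ) ≤ ⌊X / t⌋₊ := by exact_mod_cast hUt.le
  have hVt' : (U : ℝ) ≤ t := hVr.trans hx1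
  have hUt' : (U : ℝ) ≤ X / t := hUr.trans hy1
  have hy2 : (⌊X / t⌋₊ : ℝ) ≤ X / U := by
    refine hy1.trans ?_
    exact div_le_div_of_nonneg_left (by linarith) hU0 hVt'
  have hx2 : (⌊t⌋₊ : ℝ) ≤ X / U := by
    refine hx1.trans ?_
    rw [le_div_iff₀ hU0]
    rw [le_div_iff₀ ht0] at hUt'
    linarith
  have hxy : (⌊t⌋₊ : ℝ) * (⌊X / t⌋₊ : ℝ) ≤ X := by
    calc (⌊t⌋₊ : ℝ) * (⌊X / t⌋₊ : ℝ) ≤ t * (X / t) :=
          mul_le_mul hx1 hy1 (by positivity) (by linarith)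
      _ = X := by field_simp
  have hx3 : (⌊t⌋₊ : ℝ) ≤ X := hx1.trans ht2
  have hy3 : (⌊X / t⌋₊ : ℝ) ≤ X := hy1.trans (div_le_self (by linarith) ht1)
  have hdiv : ∀ z : ℝ, z ≤ X / U → Real.sqrt (z / q) ≤ Real.sqrt (X / (U * q)) := by
    intro z hz
    apply Real.sqrt_le_sqrt
    rw [← div_div]
    exact div_le_div_of_nonneg_right hz hq0.le
  apply one_pt' hBLA X _ _ R q a G hR hq ha hG hxy _ _ _ _ (hdiv _ hx2) (hdiv _ hy2)
    (by positivity) (by positivity)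
  · refine (sum_betaV_sq U ⌊t⌋₊).trans ?_
    apply mul_le_mul_of_nonneg_left _ (by positivity)
    have h2 := log_natCast_le ⌊t⌋₊ X hX hx3
    have h3 := Real.log_natCast_nonneg ⌊t⌋₊
    calc (1 + Real.log ⌊t⌋₊) ^ 3 ≤ (1 + Real.log X) ^ 3 :=
          pow_le_pow_left₀ (by linarith) (by linarith) 3
      _ ≤ (1 + Real.log X) ^ 4 := pow_le_pow_right₀ (by linarith) (by norm_num)
      _ = ((1 + Real.log X) ^ 2) ^ 2 := by ring
  · refine (sum_L2_sq U ⌊X / t⌋₊).trans ?_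
    apply mul_le_mul_of_nonneg_left _ (by positivity)
    have h2 := log_natCast_le ⌊X / t⌋₊ X hX hy3
    have h3 := Real.log_natCast_nonneg ⌊X / t⌋₊
    exact pow_le_pow_left₀ h3 (by linarith) 2

theorem rd_zero (q a m D : ℕ) (β : ℕ → ℝ) (hβ : ∀ c, D < c → β c = 0) (c : ℕ) (hc : D < c) :
    rd q a m β c = 0 := by
  unfold rd
  rw [hβ c hc, ite_self]

/-- the type I sums with long variable -/
theorem pt_I' (hBLA : S_BLA) (X : ℝ) (hX : 1 ≤ X) (U R q a : ℕ) (G : Finset ℕ) (hR : 1 ≤ R)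
    (hq : 1 ≤ q) (ha : a.Coprime q) (hG : ∀ r ∈ G, r.Prime ∧ R < r ∧ r ≤ 2 * R ∧ ¬ r ∣ q)
    (hU : 1 ≤ U) (t : ℝ) (ht1 : 1 ≤ t) (ht2 : t ≤ X) :
    ∑ m ∈ range q, ∑ r ∈ G, P ⌊t⌋₊ ⌊X / t⌋₊ (rc q m (fun n => zt n)) (rd q a m (bL U U)) r ≤
      90 * (Real.sqrt X / q + R * (Real.sqrt (X / (U * q)) + U / Real.sqrt q) +
        (R : ℝ) ^ 2) * (Real.sqrt X * (1 * Real.log X)) := by
  have hL : 0 ≤ Real.log X := Real.log_nonneg hX
  have ht0 : 0 < t := by linarith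
  have hU0 : (0:ℝ) < U := by exact_mod_cast hU
  have hq0 : (0:ℝ) < q := by exact_mod_cast hq
  have hRHS : 0 ≤ 90 * (Real.sqrt X / q + R * (Real.sqrt (X / (U * q)) + U / Real.sqrt q) +
        (R : ℝ) ^ 2) * (Real.sqrt X * (1 * Real.log X)) := by positivity
  rcases Nat.lt_or_ge U ⌊X / t⌋₊ with hUt | hUt
  swap
  · refine (zero_pt hBLA _ _ R q a G hR hq ha hG _ _ (Or.inr ?_)).trans hRHS
    apply sum_eq_zero
    intro c hc
    rw [mem_Icc] at hc
    have : bL U U c = 0 := by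
      unfold bL
      rw [if_neg (by omega)]
    rw [this]
    simp
  have hx1 : (⌊t⌋₊ : ℝ) ≤ t := Nat.floor_le (by linarith)
  have hXt : 1 ≤ X / t := by rw [le_div_iff₀ ht0]; linarith
  have hy1 : (⌊X / t⌋₊ : ℝ) ≤ X / t := Nat.floor_le (by linarith)
  have hUr : (U : ℝ) ≤ ⌊X / t⌋₊ := by exact_mod_cast hUt.le
  have hUt' : (U : ℝ) ≤ X / t := hUr.trans hy1
  have hx2 : (⌊t⌋₊ : ℝ) ≤ X / U := by
    refine hx1.trans ?_
    rw [le_div_iff₀ hU0]
    rw [le_div_iff₀ ht0] at hUt'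
    linarith
  have hxy : (⌊t⌋₊ : ℝ) * (⌊X / t⌋₊ : ℝ) ≤ X := by
    calc (⌊t⌋₊ : ℝ) * (⌊X / t⌋₊ : ℝ) ≤ t * (X / t) :=
          mul_le_mul hx1 hy1 (by positivity) (by linarith)
      _ = X := by field_simp
  have hy3 : (⌊X / t⌋₊ : ℝ) ≤ X := hy1.trans (div_le_self (by linarith) ht1)
  simp_rw [fun m : ℕ => P_trunc (U * U) ⌊t⌋₊ ⌊X / t⌋₊ (rc q m (fun n => zt n))
    (rd q a m (bL U U)) (rd_zero q a m (U * U) (bL U U) (bL_zero U U))]
  have hmin : ((min ⌊X / t⌋₊ (U * U) : ℕ) : ℝ) ≤ ⌊X / t⌋₊ := by exact_mod_cast min_le_left _ _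
  have hdiv : Real.sqrt ((⌊t⌋₊ : ℝ) / q) ≤ Real.sqrt (X / (U * q)) := by
    apply Real.sqrt_le_sqrt
    rw [← div_div]
    exact div_le_div_of_nonneg_right hx2 hq0.le
  apply one_pt' hBLA X _ _ R q a G hR hq ha hG _ _ _ _ _ hdiv _ (by norm_num) hL
  · exact zt_sq _
  · calc ∑ c ∈ Icc 1 (min ⌊X / t⌋₊ (U * U)), bL U U c ^ 2 ≤
        ∑ c ∈ Icc 1 (min ⌊X / t⌋₊ (U * U)), Real.log X ^ 2 := by
          apply sum_le_sum
          intro c hc
          rw [mem_Icc] at hc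
          rw [← sq_abs]
          apply pow_le_pow_left₀ (abs_nonneg _)
          refine (bL_abs U U c).trans ?_
          apply log_natCast_le c X hX
          refine le_trans ?_ (hmin.trans hy3)
          exact_mod_cast hc.2
      _ = _ := by simp
  · refine le_trans ?_ hxy
    exact mul_le_mul_of_nonneg_left hmin (by positivity)
  · rw [Real.sqrt_div (by positivity)]
    apply div_le_div_of_nonneg_right _ (Real.sqrt_nonneg _)
    rw [Real.sqrt_le_left (by positivity)]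
    have : ((min ⌊X / t⌋₊ (U * U) : ℕ) : ℝ) ≤ ((U * U : ℕ) : ℝ) := by
      exact_mod_cast min_le_right _ _
    refine this.trans (le_of_eq ?_)
    push_cast
    ring

theorem t_ENA : S_PVA → S_BLA → S_SPA → S_ENA := by
  intro hPVA hBLA hSPA X q a R U G hX hq ha hR hU hG
  classical
  have hL : 0 ≤ Real.log X := Real.log_nonneg hX
  have hU1 : (1 : ℝ) ≤ U := by exact_mod_cast hU
  have hR1 : (1 : ℝ) ≤ R := by exact_mod_cast hR
  have hq0 : (0 : ℝ) < q := by exact_mod_cast hq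
  have hl2R : 0 ≤ Real.log (2 * R) := Real.log_nonneg (by linarith)
  set C0 : ℝ := Real.sqrt (2 * R) * (1 + Real.log (2 * R)) with hC0
  have hC01 : 1 ≤ C0 := by
    have h1 : 1 ≤ Real.sqrt (2 * R) := by rw [Real.one_le_sqrt]; linarith
    rw [hC0]
    nlinarith
  -- pointwise
  have hpt : ∀ r ∈ G, ∀ ψ ∈ Prim r, ‖TL X r ψ (La q a)‖ ≤ 16 * U * C0 * Real.log X ^ 2 +
      (‖TL X r ψ (rc q a (fun n => ∑ i ∈ n.divisorsAntidiagonal, zt i.1 * bL U U i.2))‖ +
        ‖TL X r ψ (rc q a (LamII U U))‖) := by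
    intro r hr ψ hψ
    obtain ⟨hrp, hr1, hr2, hr3⟩ := hG r hr
    have hB : ∀ b N : ℕ, ‖∑ i ∈ (Icc 1 N).filter (fun i => i ≡ b [MOD q]), ψ (i : ZMod r)‖ ≤
        2 * C0 := by
      intro b N
      refine (hPVA r q b N hrp hq hr3 ψ hψ).trans ?_
      have hfj : (r : ℝ) ≤ 2 * R := by exact_mod_cast hr2
      have hf0 : (0 : ℝ) < r := by exact_mod_cast hrp.pos
      have hlf : Real.log r ≤ Real.log (2 * R) := Real.log_le_log hf0 hfj
      have hlf0 : 0 ≤ Real.log r := Real.log_natCast_nonneg r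
      rw [hC0]
      gcongr
    have p1 := pc1 X hX q a U r ψ
    have p2 := pc2 X hX q a ha U r ψ (2 * C0) hB
    have p3 := pc3 X hX q a ha U U r ψ (2 * C0) hB
    rw [dec X q a U r ψ]
    set a1 := TL X r ψ (rc q a (fun n => l1 U n))
    set a2 := TL X r ψ (rc q a (fun n => (ArithmeticFunction.log * mu1 U) n))
    set a3 := TL X r ψ (rc q a (fun n => ∑ i ∈ n.divisorsAntidiagonal, zt i.1 * bS U U i.2))
    set a4 := TL X r ψ (rc q a (fun n => ∑ i ∈ n.divisorsAntidiagonal, zt i.1 * bL U U i.2))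
    set a5 := TL X r ψ (rc q a (LamII U U))
    have t1 : ‖a1 + a2 - (a3 + a4) + a5‖ ≤ ‖a1‖ + ‖a2‖ + (‖a3‖ + ‖a4‖) + ‖a5‖ := by
      refine (norm_add_le _ _).trans ?_
      gcongr
      refine (norm_sub_le _ _).trans ?_
      gcongr
      · exact norm_add_le _ _
      · exact norm_add_le _ _
    have q1 : (U : ℝ) * Real.log X ^ 2 ≤ U * C0 * Real.log X ^ 2 := by
      have : (U : ℝ) * 1 ≤ U * C0 := mul_le_mul_of_nonneg_left hC01 (by linarith)
      have h2 : 0 ≤ Real.log X ^ 2 := by positivity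
      nlinarith
    have q2 : (U : ℝ) * (4 * (2 * C0) * Real.log X ^ 2) = 8 * (U * C0 * Real.log X ^ 2) := by ring
    have q3 : (U : ℝ) * Real.log X * (3 * (2 * C0) * Real.log X) =
        6 * (U * C0 * Real.log X ^ 2) := by
      ring
    have q4 : 16 * U * C0 * Real.log X ^ 2 = 16 * (U * C0 * Real.log X ^ 2) := by ring
    have q5 : 0 ≤ U * C0 * Real.log X ^ 2 := by positivity
    rw [q4]
    linarith
  have h1 : ∑ r ∈ G, ∑ ψ ∈ Prim r, ‖TL X r ψ (La q a)‖ ≤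
      ∑ r ∈ G, ∑ ψ ∈ Prim r, (16 * U * C0 * Real.log X ^ 2) +
      (∑ r ∈ G, ∑ ψ ∈ Prim r,
        ‖TL X r ψ (rc q a (fun n => ∑ i ∈ n.divisorsAntidiagonal, zt i.1 * bL U U i.2))‖ +
      ∑ r ∈ G, ∑ ψ ∈ Prim r, ‖TL X r ψ (rc q a (LamII U U))‖) := by
    simp_rw [← sum_add_distrib]
    exact sum_le_sum fun f hf => sum_le_sum fun ψ hψ => hpt f hf ψ hψ
  -- the trivial part
  have hcard : (G.card : ℝ) ≤ R := by
    have : G ⊆ Ioc R (2 * R) := by
      intro r hr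
      rw [mem_Ioc]
      exact ⟨(hG r hr).2.1, (hG r hr).2.2.1⟩
    have h := card_le_card this
    rw [Nat.card_Ioc] at h
    have h' : G.card ≤ R := by omega
    exact_mod_cast h'
  have hT : 0 ≤ 16 * U * C0 * Real.log X ^ 2 := by positivity
  have h2 : ∑ r ∈ G, ∑ ψ ∈ Prim r, (16 * U * C0 * Real.log X ^ 2) ≤
      (R : ℝ) * (2 * R * (16 * U * C0 * Real.log X ^ 2)) := by
    calc ∑ r ∈ G, ∑ ψ ∈ Prim r, (16 * U * C0 * Real.log X ^ 2) =
        ∑ r ∈ G, ((Prim r).card : ℝ) * (16 * U * C0 * Real.log X ^ 2) := by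
          apply sum_congr rfl
          intro f _
          rw [sum_const, nsmul_eq_mul]
      _ ≤ ∑ r ∈ G, (2 * R : ℝ) * (16 * U * C0 * Real.log X ^ 2) := by
          apply sum_le_sum
          intro r hr
          obtain ⟨hrp, hr1, hr2, hr3⟩ := hG r hr
          have h3 : ((Prim r).card : ℝ) ≤ 2 * R := by
            refine (card_prim_le hrp.one_lt.le).trans ?_
            exact_mod_cast (Nat.totient_le r).trans hr2
          exact mul_le_mul_of_nonneg_right h3 hT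
      _ = (G.card : ℝ) * (2 * R * (16 * U * C0 * Real.log X ^ 2)) := by
          rw [sum_const, nsmul_eq_mul]
      _ ≤ _ := mul_le_mul_of_nonneg_right hcard (by positivity)
  -- the large sieve parts
  have h5 := hSPA X q a G (betaV U) (L2 U) _ hX hq
    (fun t ht1 ht2 => pt_II' hBLA X hX U R q a G hR hq ha hG hU t ht1 ht2)
  have h6 := hSPA X q a G (fun n => zt n) (bL U U) _ hX hq
    (fun t ht1 ht2 => pt_I' hBLA X hX U R q a G hR hq ha hG hU t ht1 ht2)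
  refine h1.trans (add_le_add (h2.trans ?_) ((add_le_add h6 h5).trans ?_))
  · have : 0 ≤ (R : ℝ) ^ 2 * (U * C0 * Real.log X ^ 2) := by positivity
    calc (R : ℝ) * (2 * R * (16 * U * C0 * Real.log X ^ 2)) =
        32 * ((R : ℝ) ^ 2 * (U * C0 * Real.log X ^ 2)) := by ring
      _ ≤ 64 * ((R : ℝ) ^ 2 * (U * C0 * Real.log X ^ 2)) := by linarith
      _ = _ := by ring
  set S := Real.sqrt X with hS
  set T := Real.sqrt (X / (U * q)) with hTdef
  set Q := Real.sqrt q with hQ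
  have hS0 : 0 ≤ S := Real.sqrt_nonneg _
  have hT0 : 0 ≤ T := Real.sqrt_nonneg _
  have hQ0 : 0 ≤ Q := Real.sqrt_nonneg _
  set L := Real.log X with hLdef
  have hUQ : 0 ≤ U / Q := by positivity
  have hSq : 0 ≤ S / q := by positivity
  have hK : 0 ≤ S / q + R * (2 * T + U / Q) + (R : ℝ) ^ 2 := by positivity
  have k1 : 90 * (S / q + R * (T + U / Q) + (R : ℝ) ^ 2) * (S * (1 * L)) * L ≤
      90 * (S / q + R * (2 * T + U / Q) + (R : ℝ) ^ 2) * (S * (1 + L) ^ 4) := by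
    have e1 : S / q + R * (T + U / Q) + (R : ℝ) ^ 2 ≤
        S / q + R * (2 * T + U / Q) + (R : ℝ) ^ 2 := by
      have : (R : ℝ) * (T + U / Q) ≤ R * (2 * T + U / Q) :=
        mul_le_mul_of_nonneg_left (by linarith) (by positivity)
      linarith
    have e2 : L * L ≤ (1 + L) ^ 4 := by
      calc L * L ≤ (1 + L) * (1 + L) := mul_self_le_mul_self hL (by linarith)
        _ = (1 + L) ^ 2 := by ring
        _ ≤ (1 + L) ^ 4 := pow_le_pow_right₀ (by linarith) (by norm_num)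
    calc 90 * (S / q + R * (T + U / Q) + (R : ℝ) ^ 2) * (S * (1 * L)) * L =
        90 * (S / q + R * (T + U / Q) + (R : ℝ) ^ 2) * (S * (L * L)) := by ring
      _ ≤ _ := mul_le_mul (mul_le_mul_of_nonneg_left e1 (by norm_num))
          (mul_le_mul_of_nonneg_left e2 hS0) (by positivity) (by positivity)
  have k2 : 90 * (S / q + R * (T + T) + (R : ℝ) ^ 2) * (S * ((1 + L) ^ 2 * (1 + L))) * L ≤
      90 * (S / q + R * (2 * T + U / Q) + (R : ℝ) ^ 2) * (S * (1 + L) ^ 4) := by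
    have e1 : S / q + R * (T + T) + (R : ℝ) ^ 2 ≤ S / q + R * (2 * T + U / Q) + (R : ℝ) ^ 2 := by
      have : (R : ℝ) * (T + T) ≤ R * (2 * T + U / Q) :=
        mul_le_mul_of_nonneg_left (by linarith) (by positivity)
      linarith
    have e2 : (1 + L) ^ 2 * (1 + L) * L ≤ (1 + L) ^ 4 := by
      calc (1 + L) ^ 2 * (1 + L) * L ≤ (1 + L) ^ 2 * (1 + L) * (1 + L) :=
            mul_le_mul_of_nonneg_left (by linarith) (by positivity)
        _ = (1 + L) ^ 4 := by ring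
    calc 90 * (S / q + R * (T + T) + (R : ℝ) ^ 2) * (S * ((1 + L) ^ 2 * (1 + L))) * L =
        90 * (S / q + R * (T + T) + (R : ℝ) ^ 2) * (S * ((1 + L) ^ 2 * (1 + L) * L)) := by ring
      _ ≤ _ := mul_le_mul (mul_le_mul_of_nonneg_left e1 (by norm_num))
          (mul_le_mul_of_nonneg_left e2 hS0) (by positivity) (by positivity)
  have k3 : 0 ≤ (S / q + R * (2 * T + U / Q) + (R : ℝ) ^ 2) * (S * (1 + L) ^ 4) := by positivity
  have k4 : 200 * (S / q + R * (2 * T + U / Q) + (R : ℝ) ^ 2) * (S * (1 + L) ^ 4) =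
      200 * ((S / q + R * (2 * T + U / Q) + (R : ℝ) ^ 2) * (S * (1 + L) ^ 4)) := by ring
  have k5 : 90 * (S / q + R * (2 * T + U / Q) + (R : ℝ) ^ 2) * (S * (1 + L) ^ 4) =
      90 * ((S / q + R * (2 * T + U / Q) + (R : ℝ) ^ 2) * (S * (1 + L) ^ 4)) := by ring
  rw [k4]
  rw [k5] at k1 k2
  linarith

end Pool.Agent.D0H13.EC
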